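import Pool.Agent.helper36.PP.SpecL

/-!
# Project pp:, RADI: radii
-/

set_option autoImplicit false

open Complex Metric Set Filter Topology MeasureTheory MPS MQ Pool.Agent.helper98.ILF

noncomputable section

namespace PPS

theorem RADI_prod (k : ℕ) [NeZero k] (f : ZMod k → ℝ) :
    ∏ i : ZMod k, f i = ∏ j ∈ Finset.range k, f (j : ZMod k) := by
  symm
  refine Finset.prod_bij' (fun j _ => (j : ZMod k)) (fun i _ => i.val) ?_ ?_ ?_ ?_ ?_
  · intro j _
    exact Finset.mem_univ _
  · intro i _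
    exact Finset.mem_range.2 (ZMod.val_lt i)
  · intro j hj
    exact ZMod.val_cast_of_lt (Finset.mem_range.1 hj)
  · intro i _
    exact ZMod.natCast_zmod_val i
  · intro j _
    rfl

theorem RADI : RADI_stmt := by
  intro k _ f b hcyc hρ
  have hfd : ∀ i, 0 < ‖PPS.fd f (b i)‖ := by
    intro i
    rw [norm_pos_iff]
    exact hcyc.ne0 i
  have hrho : ‖PPS.rho f b‖ = ∏ i, ‖PPS.fd f (b i)‖ := by
    unfold PPS.rho
    rw [norm_prod]
  let r : ZMod k → ℝ := fun i => ∏ j ∈ Finset.range i.val, ‖PPS.fd f (b (j : ZMod k))‖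
  have hr : ∀ i, 0 < r i := fun i => Finset.prod_pos fun j _ => hfd _
  have hval : ∀ i : ZMod k, (i + 1).val = (i.val + 1) % k := by
    intro i
    rw [ZMod.val_add, ZMod.val_one_eq_one_mod, Nat.add_mod_mod]
  refine ⟨r, hr, ?_, ?_⟩
  · intro i
    have hlt := ZMod.val_lt i
    have hcast : ((i.val : ℕ) : ZMod k) = i := ZMod.natCast_zmod_val i
    have hstep : ‖PPS.fd f (b i)‖ * r i =
        ∏ j ∈ Finset.range (i.val + 1), ‖PPS.fd f (b (j : ZMod k))‖ := by
      rw [Finset.prod_range_succ, hcast, mul_comm]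
    rcases Nat.lt_or_ge (i.val + 1) k with h | h
    · have h1 : (i + 1).val = i.val + 1 := by rw [hval, Nat.mod_eq_of_lt h]
      rw [hstep]
      show ∏ j ∈ Finset.range (i + 1).val, ‖PPS.fd f (b (j : ZMod k))‖ ≤ _
      rw [h1]
    · have hk : i.val + 1 = k := by omega
      have h1 : (i + 1).val = 0 := by rw [hval, hk, Nat.mod_self]
      have h2 : r (i + 1) = 1 := by
        show ∏ j ∈ Finset.range (i + 1).val, ‖PPS.fd f (b (j : ZMod k))‖ = 1
        rw [h1, Finset.range_zero, Finset.prod_empty]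
      rw [h2, hstep, hk, ← RADI_prod k (fun i => ‖PPS.fd f (b i)‖), ← hrho]
      exact hρ
  · have h1 : ∀ i, Real.log (‖PPS.fd f (b i)‖ * r i / r (i + 1)) =
        Real.log ‖PPS.fd f (b i)‖ + (Real.log (r i) - Real.log (r (i + 1))) := by
      intro i
      rw [Real.log_div (mul_pos (hfd i) (hr i)).ne' (hr _).ne',
        Real.log_mul (hfd i).ne' (hr i).ne']
      ring
    have h2 : ∑ i : ZMod k, Real.log (r (i + 1)) = ∑ i : ZMod k, Real.log (r i) :=
      Equiv.sum_comp (Equiv.addRight (1 : ZMod k)) (fun i => Real.log (r i))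
    rw [Finset.sum_congr rfl fun i _ => h1 i, Finset.sum_add_distrib, Finset.sum_sub_distrib,
      h2, sub_self, add_zero, hrho, Real.log_prod fun i _ => (hfd i).ne']

end PPS
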